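import Pool.Agent.H24.Pl1

set_option autoImplicit false

namespace Pool.Agent.Results.MP_743dc4_lc.NPHard
open Pool.Agent.H11.PT Pool.Agent.H24.Pl

theorem result : ∀ L : List Bool → Prop, InNP L → ∃ f : List Bool → Inst,
    PolyTime id bits f ∧ ∀ x, WF (f x) ∧ Out2 (f x) ∧ (L x ↔ Yes (f x)) := fun L hL => by
  obtain ⟨f, hf, e⟩ := hard_out L hL
  exact ⟨f, hf.polyTime_raw, fun x => ⟨(e x).1.1, (e x).1.2, (e x).2⟩⟩

end Pool.Agent.Results.MP_743dc4_lc.NPHard
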